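import Pool.Agent.W_448sd_h84.SdL

/-!
# No flip at the level 5: window 2, energy 12 (MP_448cb3_co)

All levels less than 5 are good, no join on the level 6.  In a stair-like component there is no
element of level 6 which covers the cell `(1, 4)` only.
-/

namespace Pool.Agent.GaussPoset.F5

set_option linter.unusedSectionVars false

open Polynomial Finset Cp

universe u

variable {P : Type u} [Fintype P] [PartialOrder P] [DecidableEq P] {r : ℕ}
  {N : Tops P → Finset P} {b : Tops P → ℕ} {θ : Tops P → P → ℕ}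

/-- the types at window 2, level 5 -/
inductive Ty5 (N : Tops P → Finset P) (t : Tops P) (b : ℕ) (θ : P → ℕ) : Prop
  | light (h1 : N t = onlyB t) (h2 : θ = fun x => lev x - 2) (h3 : b = 1)
      (h6 : ∃ x ≤ (t : P), lev x = 2)
  | rect (Nc : Finset P) (co : P → ℕ × ℕ) (h0 : RectNat 5 2 t b Nc co)
      (h1 : N t = natR Nc co) (h2 : θ = thR 2 b Nc co)
      (pen : ∀ x z : P, x ≤ (t : P) → lev x = 5 → (Win.uc x).card = 2 → ¬ Pend z x)
  | stair (Nc : Finset P) (co : P → ℕ × ℕ) (h0 : StairNat 5 2 t Nc co)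
      (h1 : N t = natS Nc co) (h2 : θ = thS 2 Nc co) (h3 : b = 2)
      (pen : ∀ x z : P, x ≤ (t : P) → lev x = 5 → (Win.uc x).card = 2 → Pend z x →
        ((co x).2 = (co x).1 + 1 ∨ (co x).2 = (co x).1 + 3) ∧ ∀ z', Pend z' x → z' = z)

/-- the context -/
structure V5 (r : ℕ) (N : Tops P → Finset P) (b : Tops P → ℕ) (θ : Tops P → P → ℕ) :
    Prop where
  gt : Win.GoodTo P r 5
  typ : ∀ t, Ty5 N t (b t) (θ t)
  sum_b : ∑ t, b t = (lv P 2).card
  nj : ∀ z : P, lev z = 6 → ¬ Hul.Jn z

lemma V5.lowOnly (W : V5 r N b θ) {t : Tops P} {x : P} (hx : x ≤ (t : P))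
    (hl : lev x ≤ 6) : x ∈ onlyB t := by
  rw [mem_onlyB]
  intro s hs hxs
  by_contra hne
  rcases Nat.lt_or_ge 5 (lev x) with h | h
  · exact W.nj x (by omega) ⟨s, t, hs, t.2, hne, hxs, hx⟩
  · exact hne (Cp.top_eq W.gt.H W.gt.good h hs t.2 hxs hx)

lemma V5.topOf_eq (W : V5 r N b θ) {t : Tops P} {x : P} (hx : x ≤ (t : P))
    (hl : lev x ≤ 6) : topOf x = t := by
  have h := W.lowOnly hx hl
  rw [mem_onlyB] at h
  exact Subtype.ext (h (topOf x) (topOf x).2 (le_topOf x))

theorem V5.natTop (W : V5 r N b θ) (t : Tops P) : ∃ B, NatTop 2 t (b t) (N t) (θ t) B := by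
  have hgr := W.gt.H.gradedBelow
  rcases W.typ t with ⟨h1, h2, h3, h6⟩ | ⟨Nc, co, h0, h1, h2, -⟩ | ⟨Nc, co, h0, h1, h2, h3, h4⟩
  · rw [h1, h2, h3]
    exact ⟨_, natTop_light hgr (fun x hx hxi => W.lowOnly hx (by omega)) h6⟩
  · rw [h1, h2]
    exact ⟨_, h0.natTop hgr (by omega)⟩
  · rw [h1, h2, h3]
    exact ⟨_, h0.natTop hgr (by omega) (by omega)⟩

lemma V5.natSys (W : V5 r N b θ) : NatSys N := by
  choose B hB using W.natTop
  exact natSys_of_tops hB

/-- far data -/
theorem V5.far (W : V5 r N b θ) :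
    FarData P 2 (unnat N) (lv P 2).card (hcan (unnat N) (fun x => θ (topOf x) x)) := by
  choose B hB using W.natTop
  have h := farData_of_tops W.gt.H.gradedBelow hB
  rw [W.sum_b] at h
  exact h

/-- elements of level at most 5 are natural -/
lemma V5.low (W : V5 r N b θ) {x : P} (hx : lev x ≤ 5) : x ∉ unnat N := by
  intro hU
  have hn := mem_unnat.mp hU (topOf x)
  rcases W.typ (topOf x) with ⟨h1, h2, h3, h6⟩ | ⟨Nc, co, h0, h1, h2, -⟩ |
    ⟨Nc, co, h0, h1, h2, h3, h4⟩
  · refine hn ?_
    rw [h1]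
    exact W.lowOnly (le_topOf x) (by omega)
  · refine hn ?_
    rw [h1]
    exact mem_natR.mpr (Or.inl (h0.strip (mem_lowPart.mpr ⟨le_topOf x, by omega⟩)))
  · refine hn ?_
    rw [h1]
    exact mem_natS.mpr (Or.inl (h0.strip (mem_lowPart.mpr ⟨le_topOf x, by omega⟩)))

/-- natural elements of level at least 6 -/
theorem V5.cases (W : V5 r N b θ) {x : P} (hx : x ∉ unnat N) (hl : 6 ≤ lev x) :
    (θ (topOf x) x = lev x - 2 ∧
      ∀ z ∈ unnat N, z ≤ x → ∀ k, 2 ≤ k → k ≤ lev x → 2 ≤ nab k z) ∨
    (3 ≤ θ (topOf x) x + 1 ∧ 2 ≤ nab 3 x ∧ 2 ≤ nab 4 x) := by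
  have H := W.gt.H
  have HN := W.natSys
  have hxt : x ∈ N (topOf x) := HN.mem_iff.mpr ⟨hx, rfl⟩
  have hT := W.typ (topOf x)
  generalize ht : topOf x = t at hxt hT
  rcases hT with ⟨h1, h2, h3, h6⟩ | ⟨Nc, co, h0, h1, h2, -⟩ | ⟨Nc, co, h0, h1, h2, h3, h4⟩
  · left
    have hs : ∀ z ∈ unnat N, ∃ s : P, lev s = 0 ∧ z ≤ s ∧ s ≠ t := by
      intro z hz
      have h7 : z ∉ onlyB t := by
        rw [← h1]
        exact mem_unnat.mp hz t
      rw [mem_onlyB] at h7
      push Not at h7
      exact h7
    refine ⟨by rw [h2], ?_⟩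
    intro z hz hzx k _ hk
    obtain ⟨s, hs1, hs2, hs3⟩ := hs z hz
    exact two_le_nab_join HN H.gradedBelow hxt hzx hs1 hs3 hs2 hk
  · by_cases hJ : x ∈ junk (fun _ => True) Nc co ∨ x ∈ junk (fun _ => True) Nc (swp co)
    · left
      refine ⟨?_, ?_⟩
      · rw [h2]
        unfold thR
        rw [if_pos hJ]
      · intro z hz hzx k hk hkx
        refine rect_two_le_nab H h0 h1 hz hzx ?_ (by omega) hkx
        rcases hJ with h | h
        · exact Or.inl h
        · exact Or.inr (Or.inl h)
    · have hxN : x ∈ Nc := by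
        rw [h1, mem_natR] at hxt
        rcases hxt with h | h | h
        · exact h
        · exact absurd (Or.inl h) hJ
        · exact absurd (Or.inr h) hJ
      have hlc := h0.chart.lev x hxN
      have hb1 := h0.b_two
      have hb2 := h0.b_le
      have hrow : b t = 2 + 1 ∨ (co x).1 ≤ b t - 1 := by
        rcases h0.rows with h | h
        · exact Or.inl h
        · exact Or.inr (h x hxN)
      by_cases h7 : (co x).1 = 0 ∨ (co x).2 = 0
      · left
        refine ⟨?_, ?_⟩
        · rw [h2]
          unfold thR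
          rw [if_neg hJ]
          omega
        · intro z hz hzx k hk hkx
          exact rect_two_le_nab H h0 h1 hz hzx (Or.inr (Or.inr ⟨hxN, h7⟩)) (by omega) hkx
      · right
        have h3' := rect_nab h0.chart hxN (k := 3) (by omega)
        have h4' := rect_nab h0.chart hxN (k := 4) (by omega)
        refine ⟨?_, by omega, by omega⟩
        rw [h2]
        unfold thR
        rw [if_neg hJ]
        omega
  · by_cases hJ : x ∈ junk (fun c => c.1 ≤ c.2) Nc co
    · left
      refine ⟨?_, ?_⟩
      · rw [h2]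
        unfold thS
        rw [if_pos hJ]
      · intro z hz hzx k hk hkx
        exact stair_two_le_nab H h0 h1 hz hzx (Or.inl hJ) hk hkx
    · have hxN : x ∈ Nc := by
        rw [h1, mem_natS] at hxt
        rcases hxt with h | h
        · exact h
        · exact absurd h hJ
      have hlc := h0.chart.lev x hxN
      have hm : (co x).1 ≤ (co x).2 := h0.chart.mem x hxN
      by_cases h7 : (co x).1 = 0
      · left
        refine ⟨?_, ?_⟩
        · rw [h2]
          unfold thS
          rw [if_neg hJ]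
          omega
        · intro z hz hzx k hk hkx
          exact stair_two_le_nab H h0 h1 hz hzx (Or.inr ⟨hxN, h7⟩) hk hkx
      · right
        have h3' := stair_nab h0.chart hxN (k := 3) (by omega)
        have h4' := stair_nab h0.chart hxN (k := 4) (by omega)
        refine ⟨?_, by omega, by omega⟩
        rw [h2]
        unfold thS
        rw [if_neg hJ]
        omega

lemma nab_extra {l : ℕ} {z x u : P} (hzx : z ≤ x) (hzu : z ≤ u) (hu : lev u = l)
    (hxu : ¬ x ≤ u) : nab l x + 1 ≤ nab l z := by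
  classical
  unfold nab
  have h1 : u ∉ (lv P l).filter (fun y => x ≤ y) := fun h => hxu (mem_filter.mp h).2
  rw [← Finset.card_insert_of_notMem h1]
  refine Finset.card_le_card fun y hy => ?_
  rw [mem_insert] at hy
  rw [mem_filter, mem_lv]
  rcases hy with rfl | hy
  · exact ⟨hu, hzu⟩
  · rw [mem_filter, mem_lv] at hy
    exact ⟨hy.1, hzx.trans hy.2⟩

/-- the special elements -/
def Fl (N : Tops P → Finset P) (θ : Tops P → P → ℕ) (z : P) : Prop :=
  ∃ Nc co, StairNat 5 2 (topOf z) Nc co ∧ θ (topOf z) = thS 2 Nc co ∧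
    N (topOf z) = natS Nc co ∧ ∃ y ∈ Nc, co y = (1, 4) ∧ Pend z y

lemma cost6 {h : P → ℕ} {z : P} (hl : lev z = 6) : cst 2 h z =
    min (h z) 1 * nab 3 z + min (h z) 2 * nab 4 z + min (h z) 3 * nab 5 z + min (h z) 4 := by
  have h6 : nab 6 z = 1 := by
    have := nab_self (z := z)
    rwa [hl] at this
  rw [cst_eq, hl]
  simp only [Finset.sum_range_succ, Finset.sum_range_zero, h6]
  norm_num

/-- the elements of level 6 which are not natural -/
theorem V5.six (W : V5 r N b θ) {z : P} (hz : z ∈ bdR (unnat N)) (hl : lev z = 6) :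
    12 < cst 2 (hcan (unnat N) (fun x => θ (topOf x) x)) z ∨ Fl N θ z := by
  classical
  have H := W.gt.H
  have HN := W.natSys
  have hzU : z ∈ unnat N := (mem_filter.mp hz).1
  obtain ⟨u, hu, hzu, hh⟩ := hcan_spec (θ := fun x => θ (topOf x) x) hz
  have hlev : ∀ y, z ⋖ y → lev y = 5 := by
    intro y hy
    have := (H.covBy_iff.mp hy).2
    omega
  have htop : ∀ y, z ⋖ y → topOf y = topOf z := fun y hy =>
    (W.topOf_eq (x := z) (hy.1.le.trans (le_topOf y)) (by omega)).symm
  have hyt : ∀ y, z ⋖ y → y ≤ (topOf z : P) := fun y hy => by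
    rw [← htop y hy]
    exact le_topOf y
  have hyN : ∀ y, z ⋖ y → y ∈ N (topOf z) := fun y hy =>
    HN.mem_iff.mpr ⟨W.low (hlev y hy).le, htop y hy⟩
  have hlu := hlev u hzu
  have hhe : hcan (unnat N) (fun x => θ (topOf x) x) z = θ (topOf z) u + 1 := by
    rw [hh, htop u hzu]
  have hn5 : ∀ y, z ⋖ y → y ≠ u → 2 ≤ nab 5 z := by
    intro y hy hne
    have h1 := nab_extra (l := 5) hzu.1.le hy.1.le (hlev y hy) (fun hle => by
      rcases eq_or_lt_of_le hle with h2 | h2
      · exact hne h2.symm
      · have := lev_strictAnti h2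
        have := hlev y hy
        omega)
    have h2 : nab 5 u = 1 := by
      have := nab_self (z := u)
      rwa [hlu] at this
    omega
  have hmono : ∀ k, nab k u ≤ nab k z := fun k => nab_mono hzu.1.le
  rw [cost6 hl, hhe]
  rcases W.typ (topOf z) with ⟨g1, g2, g3, g6⟩ | ⟨Nc, co, g0, g1, g2, g3⟩ |
    ⟨Nc, co, g0, g1, g2, g3, g4⟩
  · exfalso
    refine mem_unnat.mp hzU (topOf z) ?_
    rw [g1]
    exact W.lowOnly (le_topOf z) (by omega)
  · left
    have hx : u ∈ Nc := g0.strip (mem_lowPart.mpr ⟨hyt u hzu, hlu.le⟩)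
    have honly : ¬ ∀ y, z ⋖ y → y = u := by
      intro honly
      obtain ⟨k1, -, -, k4, k5⟩ := rect_pendant H g0 g1 hzU (hyN u hzu) hzu honly
      exact g3 u z (hyt u hzu) hlu (chart_inner_uc g0.chart H k1 k4 k5) ⟨hzu, honly⟩
    push Not at honly
    obtain ⟨x', hzx', hne'⟩ := honly
    have m5 := hn5 x' hzx' hne'
    have hlc := g0.chart.lev u hx
    have hb1 := g0.b_two
    have hb2 := g0.b_le
    have hrow : b (topOf z) = 2 + 1 ∨ (co u).1 ≤ b (topOf z) - 1 := by
      rcases g0.rows with h | h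
      · exact Or.inl h
      · exact Or.inr (h u hx)
    by_cases h7 : (co u).1 = 0 ∨ (co u).2 = 0
    · have q := fun k (h1 : 1 ≤ k) (h2 : k ≤ lev u) =>
        rect_two_le_nab H g0 g1 hzU hzu.1.le (Or.inr (Or.inr ⟨hx, h7⟩)) h1 h2
      have q3 := q 3 (by norm_num) (by omega)
      have q4 := q 4 (by norm_num) (by omega)
      have hth : θ (topOf z) u = 3 := by
        rw [g2]
        unfold thR
        split_ifs <;> omega
      rw [hth]
      norm_num
      omega
    · push Not at h7
      have hJ : ¬ (u ∈ junk (fun _ => True) Nc co ∨ u ∈ junk (fun _ => True) Nc (swp co)) := by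
        rintro (h | h)
        · exact sd_not_junk g0.chart hx (by omega) h
        · exact sd_not_junk g0.chart.swap hx (show 1 ≤ (co u).2 by omega) h
      have hth : θ (topOf z) u = ((co u).1 - (b (topOf z) - 1)) + ((co u).2 - 2) := by
        rw [g2]
        unfold thR
        rw [if_neg hJ]
      have q3 := rect_nab g0.chart hx (k := 3) (by omega)
      have q4 := rect_nab g0.chart hx (k := 4) (by omega)
      have p3 := hmono 3
      have p4 := hmono 4
      rw [hth]
      have hcs : ((co u).1 = 1 ∧ (co u).2 = 4) ∨ ((co u).1 = 2 ∧ (co u).2 = 3) ∨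
          ((co u).1 = 3 ∧ (co u).2 = 2) ∨ ((co u).1 = 4 ∧ (co u).2 = 1) := by omega
      rcases hcs with ⟨e1, e2⟩ | ⟨e1, e2⟩ | ⟨e1, e2⟩ | ⟨e1, e2⟩
      all_goals
        rw [e1, e2] at q3 q4 ⊢
        rw [e1] at hrow
        have hbv : b (topOf z) = 2 ∨ b (topOf z) = 3 := by omega
        rcases hbv with hbv | hbv
        · first
          | (exfalso; omega)
          | (rw [hbv]; norm_num at q3 q4 ⊢; omega)
        · rw [hbv]
          norm_num at q3 q4 ⊢
          omega
  · have hx : u ∈ Nc := g0.strip (mem_lowPart.mpr ⟨hyt u hzu, hlu.le⟩)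
    have hm : (co u).1 ≤ (co u).2 := g0.chart.mem u hx
    have hlc := g0.chart.lev u hx
    by_cases honly : ∀ y, z ⋖ y → y = u
    · right
      obtain ⟨k1, k2, k3⟩ := stair_pendant H g0 (by omega) g1 hzU (hyN u hzu) hzu honly
      obtain ⟨p1, p2⟩ := g4 u z (hyt u hzu) hlu
        (chartS_inner_uc g0.chart H k1 k3 (by omega)) ⟨hzu, honly⟩
      rcases p1 with p1 | p1
      · exfalso
        have hzN : z ∉ Nc := fun h => mem_unnat.mp hzU (topOf z) (by
          rw [g1]
          exact mem_natS.mpr (Or.inl h))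
        obtain ⟨y, hy, hcy, hyx, hyz⟩ := max_diag g0.chart g0.max H hzN k1 hzu honly
          (s := (co u).1) (Prod.ext rfl p1)
        refine hyz (p2 y ⟨hyx, fun w hw => ?_⟩)
        have hwN := g0.chart.up _ hy w hw.1.le
        have h9 : (co w).1 ≤ (co w).2 := g0.chart.mem w hwN
        have e := (chart_cov g0.chart H hy hwN).mp hw
        rw [hcy] at e
        refine g0.chart.inj w hwN u k1 ?_
        rcases e with e | e
        · have e1 := e.1
          have e2 := e.2
          simp only at e1 e2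
          exact Prod.ext (by omega) (by omega)
        · have e1 := e.1
          have e2 := e.2
          simp only at e1 e2
          omega
      · exact ⟨Nc, co, g0, g2, g1, u, hx, Prod.ext (by simp only; omega) (by simp only; omega),
          hzu, honly⟩
    · left
      push Not at honly
      obtain ⟨x', hzx', hne'⟩ := honly
      have hx' : x' ∈ Nc := g0.strip (mem_lowPart.mpr ⟨hyt x' hzx', (hlev x' hzx').le⟩)
      have m5 := hn5 x' hzx' hne'
      have hm' : (co x').1 ≤ (co x').2 := g0.chart.mem x' hx'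
      have hlc' := g0.chart.lev x' hx'
      have hlx' := hlev x' hzx'
      have hcne : co u ≠ co x' := fun h => hne' (g0.chart.inj x' hx' u hx h.symm)
      by_cases h7 : (co u).1 = 0
      · have q := fun k (h1 : 2 ≤ k) (h2 : k ≤ lev u) =>
          stair_two_le_nab H g0 g1 hzU hzu.1.le (Or.inr ⟨hx, h7⟩) h1 h2
        have q3 := q 3 (by norm_num) (by omega)
        have q4 := q 4 (by norm_num) (by omega)
        have hth : θ (topOf z) u = 3 := by
          rw [g2]
          unfold thS
          split_ifs <;> omega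
        rw [hth]
        norm_num
        omega
      · have hth : θ (topOf z) u = ((co u).1 - 2) + ((co u).2 - 2) := by
          rw [g2]
          unfold thS
          rw [if_neg (sd_not_junk g0.chart hx (by omega))]
        have q3 := stair_nab g0.chart hx (k := 3) (by omega)
        have q4 := stair_nab g0.chart hx (k := 4) (by omega)
        have p3 := hmono 3
        have p4 := hmono 4
        rw [hth]
        have hcs : ((co u).1 = 1 ∧ (co u).2 = 4) ∨ ((co u).1 = 2 ∧ (co u).2 = 3) := by omega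
        rcases hcs with ⟨e1, e2⟩ | ⟨e1, e2⟩
        · rw [e1, e2] at q3 q4 ⊢
          norm_num at q3 q4 ⊢
          omega
        · -- one more element of level 4
          have h4' : 4 ≤ (co x').2 := by
            by_contra hcon
            exact hcne (Prod.ext (by omega) (by omega))
          obtain ⟨w, hw, hcw⟩ := g0.chart.low x' hx' (0, 4) ⟨Nat.zero_le _, h4'⟩ (Nat.zero_le _)
          have hlw : lev w = 4 := by
            rw [g0.chart.lev w hw, hcw]
            rfl
          have hxw : x' ≤ w := by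
            rw [g0.chart.le_iff x' hx' w hw, hcw]
            exact ⟨Nat.zero_le _, h4'⟩
          have h8 := nab_extra (l := 4) hzu.1.le (hzx'.1.le.trans hxw) hlw (fun hle => by
            have h9 := (g0.chart.le_iff u hx w hw).mp hle
            rw [hcw] at h9
            have h10 : 4 ≤ (co u).2 := h9.2
            omega)
          rw [e1, e2] at q3 q4 ⊢
          norm_num at q3 q4 ⊢
          omega

end Pool.Agent.GaussPoset.F5
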