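import Pool.Agent.W_448f5_h53.F5A

/-!
# No flip at the level 5: window 2, energy 12, the contradiction (MP_448cb3_co)
-/

namespace Pool.Agent.GaussPoset.F5

set_option linter.unusedSectionVars false

open Polynomial Finset Cp

universe u

variable {P : Type u} [Fintype P] [PartialOrder P] [DecidableEq P] {r : ℕ}
  {N : Tops P → Finset P} {b : Tops P → ℕ} {θ : Tops P → P → ℕ}

/-- the numbers of a special element -/
lemma V5.fl_num (W : V5 r N b θ) {z : P} (hz : z ∈ bdR (unnat N)) (hl : lev z = 6)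
    (hF : Fl N θ z) :
    cst 2 (hcan (unnat N) (fun x => θ (topOf x) x)) z = 12 ∧ nab 2 z = 2 ∧
      nab (2 + hcan (unnat N) (fun x => θ (topOf x) x) z) z = 1 ∧
      nst 2 (hcan (unnat N) (fun x => θ (topOf x) x)) z = 6 := by
  classical
  have H := W.gt.H
  obtain ⟨u, hu, hzu, hh⟩ := hcan_spec (θ := fun x => θ (topOf x) x) hz
  obtain ⟨Nc, co, h0, h2, h1, y, hy, hcy, hP⟩ := hF
  have huy : u = y := hP.2 u hzu
  subst huy
  have hlc := h0.chart.lev u hy
  rw [hcy] at hlc
  simp only at hlc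
  have htu : topOf u = topOf z := (W.topOf_eq (x := z) (hzu.1.le.trans (le_topOf u))
    (by omega)).symm
  have hth : θ (topOf u) u = 2 := by
    rw [htu, h2]
    unfold thS
    rw [if_neg (sd_not_junk h0.chart hy (by rw [hcy])), hcy]
    rfl
  have hlab : hcan (unnat N) (fun x => θ (topOf x) x) z = 3 := by
    rw [hh, hth]
  have hn : ∀ k, k ≤ 5 → nab k z = min (k / 2) 1 + 1 - (k - 4) := by
    intro k hk
    rw [nab_pend hP (l := k) (by omega)]
    have h3 := stair_nab h0.chart hy (k := k) (by omega)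
    rw [hcy] at h3
    simp only at h3
    omega
  refine ⟨?_, ?_, ?_, ?_⟩
  · rw [cst_eq, hlab, hl, Finset.sum_range_succ, ← hl, nab_self, hl]
    rw [Finset.sum_congr rfl (g := fun k => min 3 (k - 2) * (min (k / 2) 1 + 1 - (k - 4)))
      (fun k hk => by rw [mem_range] at hk; rw [hn k (by omega)])]
    decide
  · rw [hn 2 (by omega)]
    decide
  · rw [hlab, hn (2 + 3) (by omega)]
    decide
  · rw [nst_eq, hlab]
    rw [Finset.sum_congr rfl (g := fun k => min ((2 + k) / 2) 1 + 1 - (2 + k - 4))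
      (fun k hk => by rw [mem_range] at hk; rw [hn (2 + k) (by omega)])]
    decide

/-- all boundary elements are expensive or special -/
theorem V5.bd (W : V5 r N b θ) {z : P} (hz : z ∈ bdR (unnat N)) :
    12 < cst 2 (hcan (unnat N) (fun x => θ (topOf x) x)) z ∨ (lev z = 6 ∧ Fl N θ z) := by
  classical
  have H := W.gt.H
  have hzR : z ∈ unnat N := (mem_filter.mp hz).1
  obtain ⟨u, hu, hzu, hh⟩ := hcan_spec (θ := fun x => θ (topOf x) x) hz
  have hlu := (H.covBy_iff.mp hzu).2
  have hz5 : 5 < lev z := by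
    by_contra hcon
    exact W.low (not_lt.mp hcon) hzR
  rcases Nat.lt_or_ge 6 (lev z) with hl | hl
  · left
    have h5 := W.far.le_lev z hz
    rcases W.cases hu (by omega) with ⟨h1, h2⟩ | ⟨h1, h2, h3⟩
    · have h3 := sq_le_cst (i := 2) (h := hcan (unnat N) (fun x => θ (topOf x) x)) (z := z)
        (by omega) (by rw [hh, h1]; omega) (by
          intro k hk hk2
          exact h2 z hzR hzu.le k (by omega) (by omega))
      refine lt_of_lt_of_le ?_ h3
      have : 5 * 5 ≤ (lev z - 2) ^ 2 := by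
        rw [pow_two]
        exact Nat.mul_le_mul (by omega) (by omega)
      omega
    · have h7 := ct_cov (i := 2) (k := hcan (unnat N) (fun x => θ (topOf x) x) z) hzu.1
      rw [Nat.min_eq_left h5] at h7
      have h8 := sd_ct3 (u := u) (by omega) h2 h3
      have h9 := ct_mono (i := 2) (le_refl u)
        (show 3 ≤ hcan (unnat N) (fun x => θ (topOf x) x) z by rw [hh]; exact h1)
      rw [cst_ct (k := hcan (unnat N) (fun x => θ (topOf x) x) z) rfl]
      rw [hh] at h7 h9 ⊢
      omega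
  · rcases W.six hz (by omega) with h | h
    · exact Or.inl h
    · exact Or.inr ⟨by omega, h⟩

/-- no special element -/
theorem V5.kill (W : V5 r N b θ) {z : P} (hz : z ∈ bdR (unnat N)) (hl : lev z = 6)
    (hF : Fl N θ z) : False := by
  classical
  have H := W.gt.H
  set hf := hcan (unnat N) (fun x => θ (topOf x) x) with hhf
  have hge : ∀ y ∈ bdR (unnat N), 12 ≤ cst 2 hf y := by
    intro y hy
    rcases W.bd hy with h | ⟨h, h'⟩
    · exact h.le
    · exact (W.fl_num hy h h').1.ge
  have hd := W.far.dvd_lead (n := 12) hge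
  have hZ := dvd_Z W.gt.H.gauss 2 12
  set T := (bdR (unnat N)).filter (fun y => cst 2 hf y = 12) with hTdef
  have hTe : ∀ y ∈ T, nab 2 y = 2 ∧ nab (2 + hf y) y = 1 ∧ nst 2 hf y = 6 := by
    intro y hy
    rw [hTdef, mem_filter] at hy
    rcases W.bd hy.1 with h | ⟨h, h'⟩
    · rw [← hhf] at h
      omega
    · exact (W.fl_num hy.1 h h').2
  have hzT : z ∈ T := by
    rw [hTdef, mem_filter]
    exact ⟨hz, (W.fl_num hz hl hF).1⟩
  have hcard : 2 ≤ (lv P 2).card := by
    have h3 := (hTe z hzT).1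
    have h4 := nab_le z 2
    omega
  have hs := sign_sum_of_dvd (h := hf) T hZ hd (c0 := (lv P 2).card - 1) (by omega) (by
    intro y hy
    obtain ⟨h3, h4, -⟩ := hTe y hy
    rw [h3, h4]
    omega)
  have hTf : T.filter (fun y => (lv P 2).card - 1 + nab 2 y =
      (lv P 2).card + nab (2 + hf y) y) = T := by
    refine Finset.filter_true_of_mem fun y hy => ?_
    obtain ⟨h3, h4, -⟩ := hTe y hy
    rw [h3, h4]
    omega
  rw [hTf, Finset.sum_congr rfl (g := fun _ => (1 : ℤ)) (fun y hy => by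
    rw [(hTe y hy).2.2]
    norm_num)] at hs
  rw [Finset.sum_const, nsmul_eq_mul, mul_one] at hs
  have h' : T.card = 0 := by exact_mod_cast hs
  rw [Finset.card_eq_zero] at h'
  rw [h'] at hzT
  exact absurd hzT (Finset.notMem_empty z)

section One

variable {t : Tops P} {lo hi : ℕ → ℕ} {e : ℕ → ℕ → P}

/-- pendants below the doubles of a stair -/
theorem stair_pen5 (h : Win.GoodTo P r 5) (C : Comp 5 (t : P) lo hi e)
    (S : StairShape 5 lo hi) {x z : P} (hx : lev x = 5) (hxt : x ≤ (t : P))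
    (hx2 : (Win.uc x).card = 2) (hP : Pend z x) :
    ((ccoord lo hi e x).2 = (ccoord lo hi e x).1 + 1 ∨
      (ccoord lo hi e x).2 = (ccoord lo hi e x).1 + 3) ∧ ∀ z', Pend z' x → z' = z := by
  classical
  have H := h.H
  have hgo : Win.GoodTo P r ((3 + 1) + 1) := h
  have C' : Comp ((3 + 1) + 1) (t : P) lo hi e := C
  have S' : StairShape ((3 + 1) + 1) lo hi := S
  obtain ⟨n1, n2⟩ := stairShape_co C' S'
  obtain ⟨s, h1, h2, h3⟩ := C.surj x hxt (by omega)
  rw [hx] at h1 h2 h3
  have hS := (Win.near_level' hgo (by omega)).2 t lo hi e t.2 C'.toWin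
  have h4 := C'.toWin.uc_two hgo t.2 (k := 3 + 1) (by omega) h1 h2
  have h3' : e (3 + 1 + 1) s = x := h3
  rw [h3'] at h4
  have h5 := h4.mp hx2
  have hpen : ∀ w, Pend w x → w ∈ Win.pen (e (3 + 1 + 1) s) := by
    intro w hw
    rw [Win.mem_pen, h3']
    refine ⟨hw.1, ?_⟩
    rw [Finset.card_eq_one]
    refine ⟨x, ?_⟩
    ext y
    rw [Win.mem_uc, mem_singleton]
    exact ⟨hw.2 y, fun h => h ▸ hw.1⟩
  have hne : (Win.pen (e (3 + 1 + 1) s)).card ≠ 0 := by
    intro h0
    rw [Finset.card_eq_zero] at h0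
    have := hpen z hP
    rw [h0] at this
    exact absurd this (Finset.notMem_empty _)
  refine ⟨stairShape_pendant hgo (by omega) t.2 C' S' hx hxt hx2 hP.1 hP.2, ?_⟩
  have hone : (Win.pen (e (3 + 1 + 1) s)).card = 1 := by
    rcases hS with ⟨-, -, h8⟩ | ⟨h8, -⟩ | ⟨h8, -, b, hb, h9⟩
    · exact absurd (h8 s h5.1 h5.2) hne
    · exact absurd h8 n1
    · have h10 := h9 s h5.1 h5.2
      split_ifs at h10 with h11
      · exact h10
      · exact absurd h10 hne
  intro z' hP'
  obtain ⟨w, hw⟩ := Finset.card_eq_one.mp hone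
  have e1 := hpen z hP
  have e2 := hpen z' hP'
  rw [hw, mem_singleton] at e1 e2
  rw [e1, e2]

/-- the type of a strip -/
theorem type5 (h : Win.GoodTo P r 5) (C : Comp 5 (t : P) lo hi e) (hS : Wd.Shape 5 lo hi) :
    ∃ M θ, (∀ N : Tops P → Finset P, N t = M → Ty5 N t (hi 2 - lo 2 + 1) θ) ∧
      (StairShape 5 lo hi → ∃ Nc co, StairNat 5 2 t Nc co ∧ M = natS Nc co ∧ θ = thS 2 Nc co ∧
        ∀ x ∈ lowPart 5 (t : P), co x = ccoord lo hi e x) := by
  have H := h.H
  have hg := h.good
  by_cases S : StairShape 5 lo hi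
  · obtain ⟨Nc, co, h1, h1'⟩ := exists_stair C H hg H.gradedBelow S (i := 2) (by omega)
    refine ⟨natS Nc co, _, fun N hN => Ty5.stair Nc co h1 hN rfl ?_ ?_,
      fun _ => ⟨Nc, co, h1, rfl, rfl, h1'⟩⟩
    · have e1 := S.hi 2 (by omega)
      have h0 : lo 2 = 0 := by
        by_contra hcon
        have e1 := shape_lo C S.lo (l := 2) (by omega) 2 (by omega)
        have e2 := S.hi (2 + 2) (by omega)
        have e3 := C.lo_le (2 + 2) (by omega)
        omega
      omega
    · intro x z hxt hlx hx2 hP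
      obtain ⟨g1, g2⟩ := stair_pen5 h C S hlx hxt hx2 hP
      rw [h1' x (mem_lowPart.mpr ⟨hxt, by omega⟩)]
      exact ⟨g1, g2⟩
  · suffices hs : ∃ M θ, ∀ N : Tops P → Finset P, N t = M → Ty5 N t (hi 2 - lo 2 + 1) θ by
      obtain ⟨M, θ, h1⟩ := hs
      exact ⟨M, θ, h1, fun h2 => absurd h2 S⟩
    have hlight : lo 2 = hi 2 → ∃ M θ, ∀ N : Tops P → Finset P, N t = M →
        Ty5 N t (hi 2 - lo 2 + 1) θ := by
      intro h1
      refine ⟨onlyB t, fun x => lev x - 2, fun N hN => Ty5.light hN rfl (by omega) ?_⟩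
      exact ⟨e 2 (lo 2), C.le_t 2 (lo 2) (by omega) le_rfl (C.lo_le 2 (by omega)),
        C.lev_e 2 (lo 2) (by omega) le_rfl (C.lo_le 2 (by omega))⟩
    rcases hS with h1 | ⟨h1, S'⟩ | ⟨h1, h2⟩ | ⟨h1, h2, h3⟩ | ⟨h1, h2⟩ | ⟨a, h0, h1, h2, h3, hN, h4⟩
    · have e1 := h1 2 (by omega)
      exact hlight (by omega)
    · have hlt : lo 2 < hi 2 := by
        by_contra hcon
        have g3 := C.lo_le 2 (by omega)
        have g1 := C.lo_mono (l := 1) (d := 1) (by omega)
        have g2 := C.hi_mono (l := 1) (d := 1) (by omega)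
        rw [show 1 + 1 = 2 from rfl] at g1 g2
        have g4 := shape_lo C S'.lo (l := 2) (by omega) 2 (by omega)
        have g5 := shape_hi C S'.hi (l := 2) (by omega) 2 (by omega)
        have g6 := C.lo_le (2 + 2) (by omega)
        omega
      obtain ⟨Nc, co, h2, -⟩ := exists_rect C H hg H.gradedBelow S' (i := 2) (by omega) hlt
      refine ⟨natR Nc co, _, fun N hN => Ty5.rect Nc co h2 hN rfl ?_⟩
      intro x z hxt hxl hx2 hP
      exact rectShape_no_pendant (i := 4) h (by omega) t.2 C S' hxl hxt hx2 hP.1 hP.2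
    · exact absurd h2 S
    · omega
    · omega
    · have e1 := h2 2 (by omega)
      exact hlight (by omega)

end One

section All

variable {lo hi : Tops P → ℕ → ℕ} {e : Tops P → ℕ → ℕ → P}

/-- **No flip at the level 5.** No join on the level 6; then no element of the level 6 covers only
the element `(1, 4)` of a stair-like component. -/
theorem NJ_no_flip5 (h : Wd.NJ P r 5) (C : ∀ t : Tops P, Comp 5 (t : P) (lo t) (hi t) (e t))
    (hS : ∀ t, Wd.Shape 5 (lo t) (hi t)) (t : Tops P) (S : StairShape 5 (lo t) (hi t)) {z : P}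
    (h1 : lo t 5 ≤ 1) (hP : Pend z (e t 5 1)) : False := by
  classical
  choose M θ hty hSt using fun t => type5 h.g (C t) (hS t)
  have W : V5 r M (fun t => hi t 2 - lo t 2 + 1) θ :=
    ⟨h.g, fun t => hty t M rfl, (card_level h.g.H h.g.good C (i := 2) (by omega)).symm, h.no⟩
  have H := h.g.H
  obtain ⟨Nc, co, g0, g1, g2, g3⟩ := hSt t S
  have e5 := S.hi 5 le_rfl
  norm_num at e5
  have hlx : lev (e t 5 1) = 5 := (C t).lev_e 5 1 le_rfl h1 (by omega)
  have hxt := (C t).le_t 5 1 le_rfl h1 (by omega)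
  have hlz : lev z = 6 := by
    have := (H.covBy_iff.mp hP.1).2
    omega
  have hxl : e t 5 1 ∈ lowPart 5 (t : P) := mem_lowPart.mpr ⟨hxt, hlx.le⟩
  have hcx : co (e t 5 1) = (1, 4) := by
    rw [g3 _ hxl]
    unfold ccoord
    rw [scoord_e (C t) (k := 5) (s := 1) le_rfl h1 (by omega), hlx]
  have htz : topOf z = t := W.topOf_eq (hP.1.1.le.trans hxt) (by omega)
  have hxN : e t 5 1 ∈ Nc := g0.strip hxl
  have hzn : z ∉ M t := by
    intro hz
    rw [g1, mem_natS] at hz
    rcases hz with hz | hz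
    · -- a chart element has the other cover as well
      have hcz := (chart_cov g0.chart H hz hxN).mp hP.1
      rw [hcx] at hcz
      have hmz : (co z).1 ≤ (co z).2 := g0.chart.mem z hz
      have hinner : (Win.uc z).card = 2 := by
        refine chartS_inner_uc g0.chart H hz ?_ ?_
        · unfold Prd at hcz
          simp only at hcz
          omega
        · unfold Prd at hcz
          simp only at hcz
          omega
      have huc : Win.uc z = {e t 5 1} := by
        ext y
        rw [Win.mem_uc, mem_singleton]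
        exact ⟨hP.2 y, fun h => h ▸ hP.1⟩
      rw [huc, card_singleton] at hinner
      omega
    · obtain ⟨x1, H1, hz1⟩ := mem_junk.mp hz
      obtain ⟨hlt, hall⟩ := mem_jset.mp hz1
      have hlt1 := H1.lt _ hxN (by rw [hcx])
      rcases hall _ hP.1.1.le with h2 | h2
      · have h3 := (g0.chart.le_iff _ hxN _ H1.mem).mp h2
        have h4 : (co x1).2 ≤ (co (e t 5 1)).2 := h3.2
        omega
      · have h3 := (g0.chart.le_iff _ H1.mem _ hxN).mp h2
        have h4 : (co (e t 5 1)).1 ≤ (co x1).1 := h3.1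
        rw [hcx, H1.fst] at h4
        omega
  have hzU : z ∈ unnat M := by
    by_contra hn
    exact hzn (W.natSys.mem_iff.mpr ⟨hn, htz⟩)
  have hbd : z ∈ bdR (unnat M) := mem_filter.mpr ⟨hzU, e t 5 1, W.low hlx.le, hP.1⟩
  exact W.kill hbd hlz ⟨Nc, co, by rw [htz]; exact g0, by rw [htz]; exact g2,
    by rw [htz]; exact g1, e t 5 1, hxN, hcx, hP⟩

end All

end Pool.Agent.GaussPoset.F5
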